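import Mathlib
import Pool.Agent.H892.VS.Stm

/-!
# Existence of monomial bases of the graded parts of `S/J` (S_BASE)
-/

set_option autoImplicit false

open MvPolynomial

namespace Pool.Agent.H801.VS

open Pool.Agent.H892.VS

theorem mem_mon {n s : ℕ} (T : Cox n s) (u : Fin s → ℤ) (m : Mon n) :
    m ∈ T.mon u ↔ T.wt m = u := by
  unfold Cox.mon Cox.wt
  rw [Set.Finite.mem_toFinset]
  exact Iff.rfl

/-- the class of a monomial -/
noncomputable def cls {n : ℕ} (J : Ideal (MvPolynomial (Fin n) ℂ)) (m : Mon n) :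
    MvPolynomial (Fin n) ℂ ⧸ J := Ideal.Quotient.mk J (monomial m 1)

theorem mk_monomial {n : ℕ} (J : Ideal (MvPolynomial (Fin n) ℂ)) (a : Mon n) (c : ℂ) :
    Ideal.Quotient.mk J (monomial a c) = c • cls J a := by
  unfold cls
  have h1 : (monomial a c : MvPolynomial (Fin n) ℂ) = c • monomial a 1 := by
    rw [smul_monomial, smul_eq_mul, mul_one]
  rw [h1]
  rfl

theorem red_iff {n s : ℕ} (T : Cox n s) (A : Finset (Mon n)) (J : Ideal (MvPolynomial (Fin n) ℂ))
    (m : Mon n) (c : Mon n → ℂ) : T.Red A J m c ↔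
      (∀ a, c a ≠ 0 → a ∈ A ∧ T.wt a = T.wt m) ∧ cls J m = ∑ a ∈ A, c a • cls J a := by
  unfold Cox.Red
  refine and_congr Iff.rfl ?_
  rw [← Ideal.Quotient.eq_zero_iff_mem, map_sub, map_sum, sub_eq_zero]
  simp only [mk_monomial, one_smul]

theorem t_BASE : S_BASE := by
  classical
  intro n s T D J
  have h1 : ∀ u : Fin s → ℤ, ∃ B : Set (Mon n), B ⊆ (T.mon u : Set (Mon n)) ∧
      cls J '' (T.mon u : Set (Mon n)) ⊆ Submodule.span ℂ (cls J '' B) ∧
      LinearIndepOn ℂ (cls J) B := by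
    intro u
    obtain ⟨B, hB1, -, hB2, hB3⟩ := exists_linearIndepOn_extension
      (linearIndepOn_empty ℂ (cls J)) (Set.empty_subset (T.mon u : Set (Mon n)))
    exact ⟨B, hB1, hB2, hB3⟩
  choose B hB1 hB2 hB3 using h1
  refine ⟨D.biUnion fun u => (T.mon u).filter fun m => m ∈ B u, fun m hm => ?_⟩
  have hA : ∀ a, T.wt a = T.wt m →
      ((a ∈ D.biUnion fun u => (T.mon u).filter fun m => m ∈ B u) ↔ a ∈ B (T.wt m)) := by
    intro a ha
    rw [Finset.mem_biUnion]
    constructor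
    · rintro ⟨u, hu, h2⟩
      rw [Finset.mem_filter, mem_mon] at h2
      rw [← ha, h2.1]
      exact h2.2
    · intro h2
      refine ⟨T.wt m, hm, ?_⟩
      rw [Finset.mem_filter, mem_mon]
      exact ⟨ha, h2⟩
  have hBw : ∀ a ∈ B (T.wt m), T.wt a = T.wt m := fun a ha => (mem_mon T _ a).1 (hB1 _ ha)
  generalize (D.biUnion fun u => (T.mon u).filter fun m => m ∈ B u) = A at hA
  -- existence
  have h2 : cls J m ∈ Submodule.span ℂ (cls J '' B (T.wt m)) :=
    hB2 (T.wt m) (Set.mem_image_of_mem _ ((mem_mon T _ m).2 rfl))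
  rw [Finsupp.mem_span_image_iff_linearCombination] at h2
  obtain ⟨l, hl, hlm⟩ := h2
  have hlB : ∀ a, l a ≠ 0 → a ∈ B (T.wt m) := fun a ha =>
    (Finsupp.mem_supported ℂ l).1 hl (Finsupp.mem_support_iff.2 ha)
  have hsum : ∀ l' : Mon n →₀ ℂ, (∀ a, l' a ≠ 0 → a ∈ A) →
      Finsupp.linearCombination ℂ (cls J) l' = ∑ a ∈ A, l' a • cls J a := by
    intro l' h3
    rw [Finsupp.linearCombination_apply]
    exact Finsupp.sum_of_support_subset l' (fun a ha => h3 a (Finsupp.mem_support_iff.1 ha)) _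
      fun a _ => zero_smul ℂ _
  refine ⟨l, (red_iff T A J m l).2 ⟨fun a ha => ?_, ?_⟩, fun c hc => ?_⟩
  · have h3 := hlB a ha
    exact ⟨(hA a (hBw a h3)).2 h3, hBw a h3⟩
  · rw [← hlm, hsum l fun a ha => (hA a (hBw a (hlB a ha))).2 (hlB a ha)]
  · replace hc := (red_iff T A J m c).1 hc
    obtain ⟨hc1, hc2⟩ := hc
    obtain ⟨l', hl'⟩ : ∃ l' : Mon n →₀ ℂ, ∀ a, l' a = c a :=
      ⟨Finsupp.onFinset A c fun a ha => (hc1 a ha).1, fun a => rfl⟩
    have h4 : ∀ a, l' a ≠ 0 → a ∈ B (T.wt m) := by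
      intro a ha
      rw [hl'] at ha
      exact (hA a (hc1 a ha).2).1 (hc1 a ha).1
    have h5 : Finsupp.linearCombination ℂ (cls J) l' = cls J m := by
      rw [hc2, hsum l' fun a ha => (hc1 a (by rwa [← hl'])).1]
      simp only [hl']
    have h6 : l' - l = 0 := by
      refine linearIndepOn_iff.1 (hB3 (T.wt m)) (l' - l) ?_ ?_
      · exact Submodule.sub_mem _ ((Finsupp.mem_supported ℂ l').2 fun a ha =>
          h4 a (Finsupp.mem_support_iff.1 ha)) hl
      · rw [map_sub, h5, hlm, sub_self]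
    funext a
    rw [← hl', sub_eq_zero.1 h6]

end Pool.Agent.H801.VS
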